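import Mathlib

namespace Pool.Agent.Results.MP_b57ad3_co.Full

/-- `(i, j)` with `i < j` is a diagonal of the convex `N`-gon with vertices `1, …, N`. -/
def IsDiag (N : ℕ) (d : ℕ × ℕ) : Prop :=
  1 ≤ d.1 ∧ d.1 + 2 ≤ d.2 ∧ d.2 ≤ N ∧ ¬ (d.1 = 1 ∧ d.2 = N)

/-- the chords `d` and `e` cross, with `d` having the smaller first end -/
def Cross (d e : ℕ × ℕ) : Prop := d.1 < e.1 ∧ e.1 < d.2 ∧ d.2 < e.2

/-- a triangulation: a maximal set of pairwise non-crossing diagonals -/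
def IsTriangulation (N : ℕ) (T : Finset (ℕ × ℕ)) : Prop :=
  (∀ d ∈ T, IsDiag N d) ∧ (∀ d ∈ T, ∀ e ∈ T, ¬ Cross d e) ∧
    ∀ d, IsDiag N d → (∀ e ∈ T, ¬ Cross d e ∧ ¬ Cross e d) → d ∈ T

/-- `i < j` are joined by a diagonal of `T` or by a side of the polygon -/
def Edge (N : ℕ) (T : Finset (ℕ × ℕ)) (i j : ℕ) : Prop :=
  (i, j) ∈ T ∨ (1 ≤ i ∧ j = i + 1 ∧ j ≤ N) ∨ (i = 1 ∧ j = N)

/-- every triangle `i < j < k` of the triangulation gets three different colours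
(the colour of a vertex is its residue mod 3) -/
def Colorful (N : ℕ) (T : Finset (ℕ × ℕ)) : Prop :=
  IsTriangulation N T ∧ ∀ i j k, i < j → j < k → Edge N T i j → Edge N T j k → Edge N T i k →
    i % 3 ≠ j % 3 ∧ j % 3 ≠ k % 3 ∧ i % 3 ≠ k % 3

/-- `T'` arises from `T` by a twist in the hexagon `a < b < c < d < e < f` -/
def Twist (N : ℕ) (T T' : Finset (ℕ × ℕ)) : Prop :=
  ∃ a b c d e f : ℕ, a < b ∧ b < c ∧ c < d ∧ d < e ∧ e < f ∧
    Edge N T a b ∧ Edge N T b c ∧ Edge N T c d ∧ Edge N T d e ∧ Edge N T e f ∧ Edge N T a f ∧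
    (((a, c) ∈ T ∧ (c, e) ∈ T ∧ (a, e) ∈ T ∧
        T' = (T \ {(a, c), (c, e), (a, e)}) ∪ {(b, d), (d, f), (b, f)}) ∨
     ((b, d) ∈ T ∧ (d, f) ∈ T ∧ (b, f) ∈ T ∧
        T' = (T \ {(b, d), (d, f), (b, f)}) ∪ {(a, c), (c, e), (a, e)}))

/-- the twist graph `H_N` -/
def H (N : ℕ) : SimpleGraph {T : Finset (ℕ × ℕ) // Colorful N T} :=
  SimpleGraph.fromRel fun T T' => Twist N T.1 T'.1

def gen : ℕ → ℕ → ℕ → List (List (ℕ × ℕ))
  | 0, _, _ => []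
  | f + 1, a, b =>
    if b = a + 1 then [[]] else
      (List.range' (a + 1) (b - (a + 1))).flatMap fun c =>
        if a % 3 ≠ c % 3 ∧ c % 3 ≠ b % 3 ∧ a % 3 ≠ b % 3 then
          (gen f a c).flatMap fun x => (gen f c b).map fun y =>
            ((if a + 2 ≤ c then [(a, c)] else []) ++ (if c + 2 ≤ b then [(c, b)] else [])) ++
              (x ++ y)
        else []

theorem apex {N : ℕ} {T : Finset (ℕ × ℕ)} (hT : IsTriangulation N T) {a b : ℕ}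
    (hab : Edge N T a b) (h2 : a + 2 ≤ b) : ∃ c, a < c ∧ c < b ∧ Edge N T a c ∧ Edge N T c b := by
  classical
  obtain ⟨h1, hx, hm⟩ := hT
  have hb : 1 ≤ a ∧ b ≤ N := by
    rcases hab with h | h | h
    · have := h1 _ h; unfold IsDiag at this; simp only at this; omega
    · omega
    · omega
  have hne : ((Finset.Ioo a b).filter fun c => Edge N T a c).Nonempty :=
    ⟨a + 1, by
      simp only [Finset.mem_filter, Finset.mem_Ioo]
      exact ⟨⟨by omega, by omega⟩, Or.inr (Or.inl ⟨hb.1, rfl, by omega⟩)⟩⟩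
  obtain ⟨c, hc, hmax⟩ := Finset.exists_max_image _ id hne
  simp only [Finset.mem_filter, Finset.mem_Ioo, id] at hc hmax
  obtain ⟨⟨hac, hcb⟩, hec⟩ := hc
  refine ⟨c, hac, hcb, hec, ?_⟩
  by_cases hs : b = c + 1
  · exact Or.inr (Or.inl ⟨by omega, hs, hb.2⟩)
  left
  apply hm
  · unfold IsDiag; simp only; omega
  · rintro ⟨x, y⟩ he
    have hd := h1 _ he
    unfold IsDiag at hd
    simp only at hd
    have nab : ¬ Cross (a, b) (x, y) ∧ ¬ Cross (x, y) (a, b) := by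
      rcases hab with h | h | h
      · exact ⟨hx _ h _ he, hx _ he _ h⟩
      · omega
      · unfold Cross; simp only; omega
    have nac : ¬ Cross (a, c) (x, y) := by
      rcases hec with h | h | h
      · exact hx _ h _ he
      · unfold Cross; simp only; omega
      · omega
    have hxa : x = a → y < b → y ≤ c := by
      intro e1 e2
      apply hmax y
      exact ⟨⟨by omega, e2⟩, Or.inl (e1 ▸ he)⟩
    unfold Cross at nab nac ⊢
    simp only at nab nac ⊢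
    omega

theorem gen_complete {N : ℕ} {T : Finset (ℕ × ℕ)} (hT : Colorful N T) :
    ∀ (f a b : ℕ), a < b → b - a ≤ f → Edge N T a b →
      ∃ l ∈ gen f a b, ∀ x y, (x, y) ∈ l ↔ (x, y) ∈ T ∧ a ≤ x ∧ y ≤ b ∧ ¬ (x = a ∧ y = b) := by
  intro f
  induction f with
  | zero => intro a b h1 h2; omega
  | succ f ih =>
    intro a b hab hf he
    have hdiag : ∀ x y, (x, y) ∈ T → 1 ≤ x ∧ x + 2 ≤ y ∧ y ≤ N ∧ ¬ (x = 1 ∧ y = N) :=
      fun x y h => hT.1.1 _ h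
    by_cases hs : b = a + 1
    · refine ⟨[], by simp [gen, hs], ?_⟩
      intro x y
      simp only [List.not_mem_nil, false_iff]
      rintro ⟨h, h1, h2, h3⟩
      have := hdiag x y h
      omega
    obtain ⟨c, hac, hcb, e1, e2⟩ := apex hT.1 he (by omega)
    have hcol := hT.2 a c b hac hcb e1 e2 he
    obtain ⟨l1, hl1, m1⟩ := ih a c hac (by omega) e1
    obtain ⟨l2, hl2, m2⟩ := ih c b hcb (by omega) e2
    refine ⟨((if a + 2 ≤ c then [(a, c)] else []) ++ (if c + 2 ≤ b then [(c, b)] else [])) ++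
              (l1 ++ l2), ?_, ?_⟩
    · simp only [gen, if_neg hs, List.mem_flatMap]
      refine ⟨c, by rw [List.mem_range'_1]; omega, ?_⟩
      rw [if_pos hcol]
      simp only [List.mem_flatMap, List.mem_map]
      exact ⟨l1, hl1, l2, hl2, rfl⟩
    · intro x y
      have hN : b ≤ N ∧ 1 ≤ a := by
        rcases he with h | h | h
        · have := hdiag _ _ h; omega
        · omega
        · omega
      have t1 : a + 2 ≤ c → (a, c) ∈ T := by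
        intro h
        rcases e1 with h' | h' | h'
        · exact h'
        · omega
        · omega
      have t2 : c + 2 ≤ b → (c, b) ∈ T := by
        intro h
        rcases e2 with h' | h' | h'
        · exact h'
        · omega
        · omega
      simp only [List.mem_append, m1, m2]
      constructor
      · rintro ((h | h) | h | h)
        · split_ifs at h with h0
          · simp only [List.mem_singleton, Prod.mk.injEq] at h
            obtain ⟨rfl, rfl⟩ := h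
            exact ⟨t1 h0, by omega, by omega, by omega⟩
          · simp at h
        · split_ifs at h with h0
          · simp only [List.mem_singleton, Prod.mk.injEq] at h
            obtain ⟨rfl, rfl⟩ := h
            exact ⟨t2 h0, by omega, by omega, by omega⟩
          · simp at h
        · exact ⟨h.1, by omega, by omega, by omega⟩
        · exact ⟨h.1, by omega, by omega, by omega⟩
      · rintro ⟨h, h1, h2, h3⟩
        have hd := hdiag x y h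
        have n1 : ¬ Cross (a, c) (x, y) := by
          by_cases h0 : a + 2 ≤ c
          · exact hT.1.2.1 _ (t1 h0) _ h
          · unfold Cross; simp only; omega
        have n2 : ¬ Cross (x, y) (c, b) := by
          by_cases h0 : c + 2 ≤ b
          · exact hT.1.2.1 _ h _ (t2 h0)
          · unfold Cross; simp only; omega
        unfold Cross at n1 n2
        simp only at n1 n2
        by_cases q1 : x = a ∧ y = c
        · left; left
          rw [if_pos (by omega)]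
          simp [q1.1, q1.2]
        by_cases q2 : x = c ∧ y = b
        · left; right
          rw [if_pos (by omega)]
          simp [q2.1, q2.2]
        right
        by_cases q3 : y ≤ c
        · left; exact ⟨h, h1, q3, q1⟩
        · right; exact ⟨h, by omega, h2, q2⟩

def mem (l : List (ℕ × ℕ)) (i j : ℕ) : Bool := l.any fun d => d.1 == i && d.2 == j

theorem mem_iff (l : List (ℕ × ℕ)) (i j : ℕ) : mem l i j = true ↔ (i, j) ∈ l.toFinset := by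
  simp only [mem, List.any_eq_true, Bool.and_eq_true, beq_iff_eq, List.mem_toFinset]
  constructor
  · rintro ⟨⟨x, y⟩, h, rfl, rfl⟩; exact h
  · intro h; exact ⟨_, h, rfl, rfl⟩

def edgeB (l : List (ℕ × ℕ)) (i j : ℕ) : Bool :=
  (Nat.ble 1 i && j == i + 1 && Nat.ble j 14) || (i == 1 && j == 14) || mem l i j

theorem edgeB_iff (l : List (ℕ × ℕ)) (i j : ℕ) : edgeB l i j = true ↔ Edge 14 l.toFinset i j := by
  simp only [edgeB, Bool.or_eq_true, Bool.and_eq_true, Nat.ble_eq, beq_iff_eq, mem_iff, Edge]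
  tauto

def diagB (x y : ℕ) : Bool := Nat.ble 1 x && Nat.ble (x + 2) y && Nat.ble y 14 && !(x == 1 && y == 14)

theorem diagB_iff (x y : ℕ) : diagB x y = true ↔ IsDiag 14 (x, y) := by
  simp only [diagB, Bool.and_eq_true, Nat.ble_eq, Bool.not_eq_true', Bool.and_eq_false_iff,
    beq_eq_false_iff_ne, IsDiag]
  omega

def crossB (x y z w : ℕ) : Bool := Nat.blt x z && Nat.blt z y && Nat.blt y w

theorem crossB_iff (x y z w : ℕ) : crossB x y z w = true ↔ Cross (x, y) (z, w) := by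
  simp only [crossB, Bool.and_eq_true, Nat.blt_eq, Cross]
  tauto

def validB (l : List (ℕ × ℕ)) : Bool :=
  (l.all fun d => diagB d.1 d.2) &&
  (l.all fun d => l.all fun e => !(crossB d.1 d.2 e.1 e.2)) &&
  ((List.range 15).all fun x => (List.range 15).all fun y =>
    !(diagB x y) || mem l x y || l.any fun e => crossB x y e.1 e.2 || crossB e.1 e.2 x y) &&
  ((List.range 15).all fun i => (List.range 15).all fun j =>
    !(edgeB l i j) || (List.range 15).all fun k =>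
      !(edgeB l j k) || !(edgeB l i k) ||
        (i % 3 != j % 3 && j % 3 != k % 3 && i % 3 != k % 3))

theorem valid_of (l : List (ℕ × ℕ)) (h : validB l = true) : Colorful 14 l.toFinset := by
  simp only [validB, Bool.and_eq_true, List.all_eq_true, Bool.or_eq_true, Bool.not_eq_true',
    List.any_eq_true, List.mem_range, bne_iff_ne] at h
  obtain ⟨⟨⟨h1, h2⟩, h3⟩, h4⟩ := h
  have hd : ∀ d ∈ l.toFinset, IsDiag 14 d := fun d hd =>
    (diagB_iff d.1 d.2).1 (h1 d (List.mem_toFinset.1 hd))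
  refine ⟨⟨hd, ?_, ?_⟩, ?_⟩
  · intro d hd e he hc
    have := h2 d (List.mem_toFinset.1 hd) e (List.mem_toFinset.1 he)
    rw [(crossB_iff d.1 d.2 e.1 e.2).2 hc] at this
    exact Bool.noConfusion this
  · rintro ⟨x, y⟩ hxy hn
    have hb : x < 15 ∧ y < 15 := by unfold IsDiag at hxy; simp only at hxy; omega
    rcases h3 x hb.1 y hb.2 with (h | h) | ⟨e, he, h⟩
    · rw [(diagB_iff x y).2 hxy] at h; exact Bool.noConfusion h
    · exact (mem_iff l x y).1 h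
    · have := hn e (List.mem_toFinset.2 he)
      rcases h with h | h
      · exact absurd ((crossB_iff _ _ _ _).1 h) this.1
      · exact absurd ((crossB_iff _ _ _ _).1 h) this.2
  · intro i j k hij hjk e1 e2 e3
    have hk : k < 15 := by
      rcases e2 with h | h | h
      · have := hd _ h; unfold IsDiag at this; simp only at this; omega
      · omega
      · omega
    rcases h4 i (by omega) j (by omega) with h | h
    · rw [(edgeB_iff l i j).2 e1] at h; exact Bool.noConfusion h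
    rcases h k hk with (h | h) | h
    · rw [(edgeB_iff l j k).2 e2] at h; exact Bool.noConfusion h
    · rw [(edgeB_iff l i k).2 e3] at h; exact Bool.noConfusion h
    · exact ⟨h.1.1, h.1.2, h.2⟩

/-- `l'` is `l` with `s` removed and `s'` inserted -/
def swapB (l l' s s' : List (ℕ × ℕ)) : Bool :=
  (s.all fun d => mem l d.1 d.2) &&
  (l'.all fun d => (mem l d.1 d.2 && !(mem s d.1 d.2)) || mem s' d.1 d.2) &&
  (l.all fun d => mem s d.1 d.2 || mem l' d.1 d.2) && (s'.all fun d => mem l' d.1 d.2)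

theorem swap_of (l l' s s' : List (ℕ × ℕ)) (h : swapB l l' s s' = true) :
    (∀ d ∈ s, d ∈ l.toFinset) ∧ l'.toFinset = (l.toFinset \ s.toFinset) ∪ s'.toFinset := by
  simp only [swapB, Bool.and_eq_true, List.all_eq_true, Bool.or_eq_true, Bool.not_eq_true',
    mem_iff, ← Bool.not_eq_true] at h
  obtain ⟨⟨⟨h1, h2⟩, h3⟩, h4⟩ := h
  refine ⟨fun d hd => h1 d hd, ?_⟩
  ext d
  simp only [Finset.mem_union, Finset.mem_sdiff]
  constructor
  · intro hd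
    have := h2 d (List.mem_toFinset.1 hd)
    simpa [mem_iff] using this
  · rintro (⟨a, b⟩ | a)
    · rcases h3 d (List.mem_toFinset.1 a) with h | h
      · exact absurd h b
      · exact h
    · exact h4 d (List.mem_toFinset.1 a)

def twistB (l l' : List (ℕ × ℕ)) (a b c d e f : ℕ) : Bool :=
  Nat.blt a b && Nat.blt b c && Nat.blt c d && Nat.blt d e && Nat.blt e f &&
  edgeB l a b && edgeB l b c && edgeB l c d && edgeB l d e && edgeB l e f && edgeB l a f &&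
  (swapB l l' [(a, c), (c, e), (a, e)] [(b, d), (d, f), (b, f)] ||
   swapB l l' [(b, d), (d, f), (b, f)] [(a, c), (c, e), (a, e)])

theorem twist_of (l l' : List (ℕ × ℕ)) (a b c d e f : ℕ) (h : twistB l l' a b c d e f = true) :
    Twist 14 l.toFinset l'.toFinset := by
  simp only [twistB, Bool.and_eq_true, Bool.or_eq_true, Nat.blt_eq, edgeB_iff] at h
  obtain ⟨⟨⟨⟨⟨⟨⟨⟨⟨⟨⟨h1, h2⟩, h3⟩, h4⟩, h5⟩, e1⟩, e2⟩, e3⟩, e4⟩, e5⟩, e6⟩, h⟩ := h
  refine ⟨a, b, c, d, e, f, h1, h2, h3, h4, h5, e1, e2, e3, e4, e5, e6, ?_⟩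
  rcases h with h | h
  · obtain ⟨p, q⟩ := swap_of _ _ _ _ h
    left
    exact ⟨p _ (by simp), p _ (by simp), p _ (by simp), by simpa using q⟩
  · obtain ⟨p, q⟩ := swap_of _ _ _ _ h
    right
    exact ⟨p _ (by simp), p _ (by simp), p _ (by simp), by simpa using q⟩

def lit : List (List (ℕ × ℕ)) := [
  [(1, 3), (3, 14), (4, 14), (4, 6), (6, 14), (7, 14), (7, 9), (9, 14), (10, 14), (10, 12), (12, 14)],
  [(1, 3), (3, 14), (4, 14), (4, 6), (6, 14), (7, 14), (7, 9), (9, 14), (9, 13), (9, 11), (11, 13)],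
  [(1, 3), (3, 14), (4, 14), (4, 6), (6, 14), (7, 14), (7, 12), (12, 14), (8, 12), (8, 10), (10, 12)],
  [(1, 3), (3, 14), (4, 14), (4, 6), (6, 14), (7, 14), (7, 12), (12, 14), (7, 11), (7, 9), (9, 11)],
  [(1, 3), (3, 14), (4, 14), (4, 6), (6, 14), (6, 10), (10, 14), (6, 8), (8, 10), (10, 12), (12, 14)],
  [(1, 3), (3, 14), (4, 14), (4, 6), (6, 14), (6, 13), (6, 8), (8, 13), (9, 13), (9, 11), (11, 13)],
  [(1, 3), (3, 14), (4, 14), (4, 6), (6, 14), (6, 13), (6, 8), (8, 13), (8, 12), (8, 10), (10, 12)],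
  [(1, 3), (3, 14), (4, 14), (4, 6), (6, 14), (6, 13), (6, 11), (11, 13), (7, 11), (7, 9), (9, 11)],
  [(1, 3), (3, 14), (4, 14), (4, 6), (6, 14), (6, 13), (6, 11), (11, 13), (6, 10), (6, 8), (8, 10)],
  [(1, 3), (3, 14), (4, 14), (4, 9), (9, 14), (5, 9), (5, 7), (7, 9), (10, 14), (10, 12), (12, 14)],
  [(1, 3), (3, 14), (4, 14), (4, 9), (9, 14), (5, 9), (5, 7), (7, 9), (9, 13), (9, 11), (11, 13)],
  [(1, 3), (3, 14), (4, 14), (4, 9), (9, 14), (4, 8), (4, 6), (6, 8), (10, 14), (10, 12), (12, 14)],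
  [(1, 3), (3, 14), (4, 14), (4, 9), (9, 14), (4, 8), (4, 6), (6, 8), (9, 13), (9, 11), (11, 13)],
  [(1, 3), (3, 14), (4, 14), (4, 12), (12, 14), (5, 12), (5, 7), (7, 12), (8, 12), (8, 10), (10, 12)],
  [(1, 3), (3, 14), (4, 14), (4, 12), (12, 14), (5, 12), (5, 7), (7, 12), (7, 11), (7, 9), (9, 11)],
  [(1, 3), (3, 14), (4, 14), (4, 12), (12, 14), (5, 12), (5, 10), (10, 12), (6, 10), (6, 8), (8, 10)],
  [(1, 3), (3, 14), (4, 14), (4, 12), (12, 14), (5, 12), (5, 10), (10, 12), (5, 9), (5, 7), (7, 9)],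
  [(1, 3), (3, 14), (4, 14), (4, 12), (12, 14), (4, 8), (8, 12), (4, 6), (6, 8), (8, 10), (10, 12)],
  [(1, 3), (3, 14), (4, 14), (4, 12), (12, 14), (4, 11), (4, 6), (6, 11), (7, 11), (7, 9), (9, 11)],
  [(1, 3), (3, 14), (4, 14), (4, 12), (12, 14), (4, 11), (4, 6), (6, 11), (6, 10), (6, 8), (8, 10)],
  [(1, 3), (3, 14), (4, 14), (4, 12), (12, 14), (4, 11), (4, 9), (9, 11), (5, 9), (5, 7), (7, 9)],
  [(1, 3), (3, 14), (4, 14), (4, 12), (12, 14), (4, 11), (4, 9), (9, 11), (4, 8), (4, 6), (6, 8)],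
  [(1, 3), (3, 14), (3, 7), (7, 14), (3, 5), (5, 7), (7, 9), (9, 14), (10, 14), (10, 12), (12, 14)],
  [(1, 3), (3, 14), (3, 7), (7, 14), (3, 5), (5, 7), (7, 9), (9, 14), (9, 13), (9, 11), (11, 13)],
  [(1, 3), (3, 14), (3, 7), (7, 14), (3, 5), (5, 7), (7, 12), (12, 14), (8, 12), (8, 10), (10, 12)],
  [(1, 3), (3, 14), (3, 7), (7, 14), (3, 5), (5, 7), (7, 12), (12, 14), (7, 11), (7, 9), (9, 11)],
  [(1, 3), (3, 14), (3, 10), (10, 14), (3, 5), (5, 10), (6, 10), (6, 8), (8, 10), (10, 12), (12, 14)],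
  [(1, 3), (3, 14), (3, 10), (10, 14), (3, 5), (5, 10), (5, 9), (5, 7), (7, 9), (10, 12), (12, 14)],
  [(1, 3), (3, 14), (3, 10), (10, 14), (3, 8), (8, 10), (4, 8), (4, 6), (6, 8), (10, 12), (12, 14)],
  [(1, 3), (3, 14), (3, 10), (10, 14), (3, 8), (8, 10), (3, 7), (3, 5), (5, 7), (10, 12), (12, 14)],
  [(1, 3), (3, 14), (3, 13), (3, 5), (5, 13), (6, 13), (6, 8), (8, 13), (9, 13), (9, 11), (11, 13)],
  [(1, 3), (3, 14), (3, 13), (3, 5), (5, 13), (6, 13), (6, 8), (8, 13), (8, 12), (8, 10), (10, 12)],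
  [(1, 3), (3, 14), (3, 13), (3, 5), (5, 13), (6, 13), (6, 11), (11, 13), (7, 11), (7, 9), (9, 11)],
  [(1, 3), (3, 14), (3, 13), (3, 5), (5, 13), (6, 13), (6, 11), (11, 13), (6, 10), (6, 8), (8, 10)],
  [(1, 3), (3, 14), (3, 13), (3, 5), (5, 13), (5, 9), (9, 13), (5, 7), (7, 9), (9, 11), (11, 13)],
  [(1, 3), (3, 14), (3, 13), (3, 5), (5, 13), (5, 12), (5, 7), (7, 12), (8, 12), (8, 10), (10, 12)],
  [(1, 3), (3, 14), (3, 13), (3, 5), (5, 13), (5, 12), (5, 7), (7, 12), (7, 11), (7, 9), (9, 11)],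
  [(1, 3), (3, 14), (3, 13), (3, 5), (5, 13), (5, 12), (5, 10), (10, 12), (6, 10), (6, 8), (8, 10)],
  [(1, 3), (3, 14), (3, 13), (3, 5), (5, 13), (5, 12), (5, 10), (10, 12), (5, 9), (5, 7), (7, 9)],
  [(1, 3), (3, 14), (3, 13), (3, 8), (8, 13), (4, 8), (4, 6), (6, 8), (9, 13), (9, 11), (11, 13)],
  [(1, 3), (3, 14), (3, 13), (3, 8), (8, 13), (4, 8), (4, 6), (6, 8), (8, 12), (8, 10), (10, 12)],
  [(1, 3), (3, 14), (3, 13), (3, 8), (8, 13), (3, 7), (3, 5), (5, 7), (9, 13), (9, 11), (11, 13)],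
  [(1, 3), (3, 14), (3, 13), (3, 8), (8, 13), (3, 7), (3, 5), (5, 7), (8, 12), (8, 10), (10, 12)],
  [(1, 3), (3, 14), (3, 13), (3, 11), (11, 13), (4, 11), (4, 6), (6, 11), (7, 11), (7, 9), (9, 11)],
  [(1, 3), (3, 14), (3, 13), (3, 11), (11, 13), (4, 11), (4, 6), (6, 11), (6, 10), (6, 8), (8, 10)],
  [(1, 3), (3, 14), (3, 13), (3, 11), (11, 13), (4, 11), (4, 9), (9, 11), (5, 9), (5, 7), (7, 9)],
  [(1, 3), (3, 14), (3, 13), (3, 11), (11, 13), (4, 11), (4, 9), (9, 11), (4, 8), (4, 6), (6, 8)],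
  [(1, 3), (3, 14), (3, 13), (3, 11), (11, 13), (3, 7), (7, 11), (3, 5), (5, 7), (7, 9), (9, 11)],
  [(1, 3), (3, 14), (3, 13), (3, 11), (11, 13), (3, 10), (3, 5), (5, 10), (6, 10), (6, 8), (8, 10)],
  [(1, 3), (3, 14), (3, 13), (3, 11), (11, 13), (3, 10), (3, 5), (5, 10), (5, 9), (5, 7), (7, 9)],
  [(1, 3), (3, 14), (3, 13), (3, 11), (11, 13), (3, 10), (3, 8), (8, 10), (4, 8), (4, 6), (6, 8)],
  [(1, 3), (3, 14), (3, 13), (3, 11), (11, 13), (3, 10), (3, 8), (8, 10), (3, 7), (3, 5), (5, 7)],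
  [(1, 6), (6, 14), (2, 6), (2, 4), (4, 6), (7, 14), (7, 9), (9, 14), (10, 14), (10, 12), (12, 14)],
  [(1, 6), (6, 14), (2, 6), (2, 4), (4, 6), (7, 14), (7, 9), (9, 14), (9, 13), (9, 11), (11, 13)],
  [(1, 6), (6, 14), (2, 6), (2, 4), (4, 6), (7, 14), (7, 12), (12, 14), (8, 12), (8, 10), (10, 12)],
  [(1, 6), (6, 14), (2, 6), (2, 4), (4, 6), (7, 14), (7, 12), (12, 14), (7, 11), (7, 9), (9, 11)],
  [(1, 6), (6, 14), (2, 6), (2, 4), (4, 6), (6, 10), (10, 14), (6, 8), (8, 10), (10, 12), (12, 14)],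
  [(1, 6), (6, 14), (2, 6), (2, 4), (4, 6), (6, 13), (6, 8), (8, 13), (9, 13), (9, 11), (11, 13)],
  [(1, 6), (6, 14), (2, 6), (2, 4), (4, 6), (6, 13), (6, 8), (8, 13), (8, 12), (8, 10), (10, 12)],
  [(1, 6), (6, 14), (2, 6), (2, 4), (4, 6), (6, 13), (6, 11), (11, 13), (7, 11), (7, 9), (9, 11)],
  [(1, 6), (6, 14), (2, 6), (2, 4), (4, 6), (6, 13), (6, 11), (11, 13), (6, 10), (6, 8), (8, 10)],
  [(1, 6), (6, 14), (1, 5), (1, 3), (3, 5), (7, 14), (7, 9), (9, 14), (10, 14), (10, 12), (12, 14)],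
  [(1, 6), (6, 14), (1, 5), (1, 3), (3, 5), (7, 14), (7, 9), (9, 14), (9, 13), (9, 11), (11, 13)],
  [(1, 6), (6, 14), (1, 5), (1, 3), (3, 5), (7, 14), (7, 12), (12, 14), (8, 12), (8, 10), (10, 12)],
  [(1, 6), (6, 14), (1, 5), (1, 3), (3, 5), (7, 14), (7, 12), (12, 14), (7, 11), (7, 9), (9, 11)],
  [(1, 6), (6, 14), (1, 5), (1, 3), (3, 5), (6, 10), (10, 14), (6, 8), (8, 10), (10, 12), (12, 14)],
  [(1, 6), (6, 14), (1, 5), (1, 3), (3, 5), (6, 13), (6, 8), (8, 13), (9, 13), (9, 11), (11, 13)],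
  [(1, 6), (6, 14), (1, 5), (1, 3), (3, 5), (6, 13), (6, 8), (8, 13), (8, 12), (8, 10), (10, 12)],
  [(1, 6), (6, 14), (1, 5), (1, 3), (3, 5), (6, 13), (6, 11), (11, 13), (7, 11), (7, 9), (9, 11)],
  [(1, 6), (6, 14), (1, 5), (1, 3), (3, 5), (6, 13), (6, 11), (11, 13), (6, 10), (6, 8), (8, 10)],
  [(1, 9), (9, 14), (2, 9), (2, 4), (4, 9), (5, 9), (5, 7), (7, 9), (10, 14), (10, 12), (12, 14)],
  [(1, 9), (9, 14), (2, 9), (2, 4), (4, 9), (5, 9), (5, 7), (7, 9), (9, 13), (9, 11), (11, 13)],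
  [(1, 9), (9, 14), (2, 9), (2, 4), (4, 9), (4, 8), (4, 6), (6, 8), (10, 14), (10, 12), (12, 14)],
  [(1, 9), (9, 14), (2, 9), (2, 4), (4, 9), (4, 8), (4, 6), (6, 8), (9, 13), (9, 11), (11, 13)],
  [(1, 9), (9, 14), (2, 9), (2, 7), (7, 9), (3, 7), (3, 5), (5, 7), (10, 14), (10, 12), (12, 14)],
  [(1, 9), (9, 14), (2, 9), (2, 7), (7, 9), (3, 7), (3, 5), (5, 7), (9, 13), (9, 11), (11, 13)],
  [(1, 9), (9, 14), (2, 9), (2, 7), (7, 9), (2, 6), (2, 4), (4, 6), (10, 14), (10, 12), (12, 14)],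
  [(1, 9), (9, 14), (2, 9), (2, 7), (7, 9), (2, 6), (2, 4), (4, 6), (9, 13), (9, 11), (11, 13)],
  [(1, 9), (9, 14), (1, 5), (5, 9), (1, 3), (3, 5), (5, 7), (7, 9), (10, 14), (10, 12), (12, 14)],
  [(1, 9), (9, 14), (1, 5), (5, 9), (1, 3), (3, 5), (5, 7), (7, 9), (9, 13), (9, 11), (11, 13)],
  [(1, 9), (9, 14), (1, 8), (1, 3), (3, 8), (4, 8), (4, 6), (6, 8), (10, 14), (10, 12), (12, 14)],
  [(1, 9), (9, 14), (1, 8), (1, 3), (3, 8), (4, 8), (4, 6), (6, 8), (9, 13), (9, 11), (11, 13)],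
  [(1, 9), (9, 14), (1, 8), (1, 3), (3, 8), (3, 7), (3, 5), (5, 7), (10, 14), (10, 12), (12, 14)],
  [(1, 9), (9, 14), (1, 8), (1, 3), (3, 8), (3, 7), (3, 5), (5, 7), (9, 13), (9, 11), (11, 13)],
  [(1, 9), (9, 14), (1, 8), (1, 6), (6, 8), (2, 6), (2, 4), (4, 6), (10, 14), (10, 12), (12, 14)],
  [(1, 9), (9, 14), (1, 8), (1, 6), (6, 8), (2, 6), (2, 4), (4, 6), (9, 13), (9, 11), (11, 13)],
  [(1, 9), (9, 14), (1, 8), (1, 6), (6, 8), (1, 5), (1, 3), (3, 5), (10, 14), (10, 12), (12, 14)],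
  [(1, 9), (9, 14), (1, 8), (1, 6), (6, 8), (1, 5), (1, 3), (3, 5), (9, 13), (9, 11), (11, 13)],
  [(1, 12), (12, 14), (2, 12), (2, 4), (4, 12), (5, 12), (5, 7), (7, 12), (8, 12), (8, 10), (10, 12)],
  [(1, 12), (12, 14), (2, 12), (2, 4), (4, 12), (5, 12), (5, 7), (7, 12), (7, 11), (7, 9), (9, 11)],
  [(1, 12), (12, 14), (2, 12), (2, 4), (4, 12), (5, 12), (5, 10), (10, 12), (6, 10), (6, 8), (8, 10)],
  [(1, 12), (12, 14), (2, 12), (2, 4), (4, 12), (5, 12), (5, 10), (10, 12), (5, 9), (5, 7), (7, 9)],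
  [(1, 12), (12, 14), (2, 12), (2, 4), (4, 12), (4, 8), (8, 12), (4, 6), (6, 8), (8, 10), (10, 12)],
  [(1, 12), (12, 14), (2, 12), (2, 4), (4, 12), (4, 11), (4, 6), (6, 11), (7, 11), (7, 9), (9, 11)],
  [(1, 12), (12, 14), (2, 12), (2, 4), (4, 12), (4, 11), (4, 6), (6, 11), (6, 10), (6, 8), (8, 10)],
  [(1, 12), (12, 14), (2, 12), (2, 4), (4, 12), (4, 11), (4, 9), (9, 11), (5, 9), (5, 7), (7, 9)],
  [(1, 12), (12, 14), (2, 12), (2, 4), (4, 12), (4, 11), (4, 9), (9, 11), (4, 8), (4, 6), (6, 8)],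
  [(1, 12), (12, 14), (2, 12), (2, 7), (7, 12), (3, 7), (3, 5), (5, 7), (8, 12), (8, 10), (10, 12)],
  [(1, 12), (12, 14), (2, 12), (2, 7), (7, 12), (3, 7), (3, 5), (5, 7), (7, 11), (7, 9), (9, 11)],
  [(1, 12), (12, 14), (2, 12), (2, 7), (7, 12), (2, 6), (2, 4), (4, 6), (8, 12), (8, 10), (10, 12)],
  [(1, 12), (12, 14), (2, 12), (2, 7), (7, 12), (2, 6), (2, 4), (4, 6), (7, 11), (7, 9), (9, 11)],
  [(1, 12), (12, 14), (2, 12), (2, 10), (10, 12), (3, 10), (3, 5), (5, 10), (6, 10), (6, 8), (8, 10)],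
  [(1, 12), (12, 14), (2, 12), (2, 10), (10, 12), (3, 10), (3, 5), (5, 10), (5, 9), (5, 7), (7, 9)],
  [(1, 12), (12, 14), (2, 12), (2, 10), (10, 12), (3, 10), (3, 8), (8, 10), (4, 8), (4, 6), (6, 8)],
  [(1, 12), (12, 14), (2, 12), (2, 10), (10, 12), (3, 10), (3, 8), (8, 10), (3, 7), (3, 5), (5, 7)],
  [(1, 12), (12, 14), (2, 12), (2, 10), (10, 12), (2, 6), (6, 10), (2, 4), (4, 6), (6, 8), (8, 10)],
  [(1, 12), (12, 14), (2, 12), (2, 10), (10, 12), (2, 9), (2, 4), (4, 9), (5, 9), (5, 7), (7, 9)],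
  [(1, 12), (12, 14), (2, 12), (2, 10), (10, 12), (2, 9), (2, 4), (4, 9), (4, 8), (4, 6), (6, 8)],
  [(1, 12), (12, 14), (2, 12), (2, 10), (10, 12), (2, 9), (2, 7), (7, 9), (3, 7), (3, 5), (5, 7)],
  [(1, 12), (12, 14), (2, 12), (2, 10), (10, 12), (2, 9), (2, 7), (7, 9), (2, 6), (2, 4), (4, 6)],
  [(1, 12), (12, 14), (1, 5), (5, 12), (1, 3), (3, 5), (5, 7), (7, 12), (8, 12), (8, 10), (10, 12)],
  [(1, 12), (12, 14), (1, 5), (5, 12), (1, 3), (3, 5), (5, 7), (7, 12), (7, 11), (7, 9), (9, 11)],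
  [(1, 12), (12, 14), (1, 5), (5, 12), (1, 3), (3, 5), (5, 10), (10, 12), (6, 10), (6, 8), (8, 10)],
  [(1, 12), (12, 14), (1, 5), (5, 12), (1, 3), (3, 5), (5, 10), (10, 12), (5, 9), (5, 7), (7, 9)],
  [(1, 12), (12, 14), (1, 8), (8, 12), (1, 3), (3, 8), (4, 8), (4, 6), (6, 8), (8, 10), (10, 12)],
  [(1, 12), (12, 14), (1, 8), (8, 12), (1, 3), (3, 8), (3, 7), (3, 5), (5, 7), (8, 10), (10, 12)],
  [(1, 12), (12, 14), (1, 8), (8, 12), (1, 6), (6, 8), (2, 6), (2, 4), (4, 6), (8, 10), (10, 12)],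
  [(1, 12), (12, 14), (1, 8), (8, 12), (1, 6), (6, 8), (1, 5), (1, 3), (3, 5), (8, 10), (10, 12)],
  [(1, 12), (12, 14), (1, 11), (1, 3), (3, 11), (4, 11), (4, 6), (6, 11), (7, 11), (7, 9), (9, 11)],
  [(1, 12), (12, 14), (1, 11), (1, 3), (3, 11), (4, 11), (4, 6), (6, 11), (6, 10), (6, 8), (8, 10)],
  [(1, 12), (12, 14), (1, 11), (1, 3), (3, 11), (4, 11), (4, 9), (9, 11), (5, 9), (5, 7), (7, 9)],
  [(1, 12), (12, 14), (1, 11), (1, 3), (3, 11), (4, 11), (4, 9), (9, 11), (4, 8), (4, 6), (6, 8)],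
  [(1, 12), (12, 14), (1, 11), (1, 3), (3, 11), (3, 7), (7, 11), (3, 5), (5, 7), (7, 9), (9, 11)],
  [(1, 12), (12, 14), (1, 11), (1, 3), (3, 11), (3, 10), (3, 5), (5, 10), (6, 10), (6, 8), (8, 10)],
  [(1, 12), (12, 14), (1, 11), (1, 3), (3, 11), (3, 10), (3, 5), (5, 10), (5, 9), (5, 7), (7, 9)],
  [(1, 12), (12, 14), (1, 11), (1, 3), (3, 11), (3, 10), (3, 8), (8, 10), (4, 8), (4, 6), (6, 8)],
  [(1, 12), (12, 14), (1, 11), (1, 3), (3, 11), (3, 10), (3, 8), (8, 10), (3, 7), (3, 5), (5, 7)],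
  [(1, 12), (12, 14), (1, 11), (1, 6), (6, 11), (2, 6), (2, 4), (4, 6), (7, 11), (7, 9), (9, 11)],
  [(1, 12), (12, 14), (1, 11), (1, 6), (6, 11), (2, 6), (2, 4), (4, 6), (6, 10), (6, 8), (8, 10)],
  [(1, 12), (12, 14), (1, 11), (1, 6), (6, 11), (1, 5), (1, 3), (3, 5), (7, 11), (7, 9), (9, 11)],
  [(1, 12), (12, 14), (1, 11), (1, 6), (6, 11), (1, 5), (1, 3), (3, 5), (6, 10), (6, 8), (8, 10)],
  [(1, 12), (12, 14), (1, 11), (1, 9), (9, 11), (2, 9), (2, 4), (4, 9), (5, 9), (5, 7), (7, 9)],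
  [(1, 12), (12, 14), (1, 11), (1, 9), (9, 11), (2, 9), (2, 4), (4, 9), (4, 8), (4, 6), (6, 8)],
  [(1, 12), (12, 14), (1, 11), (1, 9), (9, 11), (2, 9), (2, 7), (7, 9), (3, 7), (3, 5), (5, 7)],
  [(1, 12), (12, 14), (1, 11), (1, 9), (9, 11), (2, 9), (2, 7), (7, 9), (2, 6), (2, 4), (4, 6)],
  [(1, 12), (12, 14), (1, 11), (1, 9), (9, 11), (1, 5), (5, 9), (1, 3), (3, 5), (5, 7), (7, 9)],
  [(1, 12), (12, 14), (1, 11), (1, 9), (9, 11), (1, 8), (1, 3), (3, 8), (4, 8), (4, 6), (6, 8)],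
  [(1, 12), (12, 14), (1, 11), (1, 9), (9, 11), (1, 8), (1, 3), (3, 8), (3, 7), (3, 5), (5, 7)],
  [(1, 12), (12, 14), (1, 11), (1, 9), (9, 11), (1, 8), (1, 6), (6, 8), (2, 6), (2, 4), (4, 6)],
  [(1, 12), (12, 14), (1, 11), (1, 9), (9, 11), (1, 8), (1, 6), (6, 8), (1, 5), (1, 3), (3, 5)]]

def cert : List (List ℕ) := [
  [0, 0, 0, 0, 0, 0, 0, 0],
  [1, 0, 9, 10, 11, 12, 13, 14],
  [4, 6, 6, 7, 8, 12, 13, 14],
  [4, 7, 6, 7, 11, 12, 13, 14],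
  [1, 0, 6, 7, 8, 9, 10, 14],
  [2, 1, 6, 7, 8, 9, 13, 14],
  [3, 5, 8, 9, 10, 11, 12, 13],
  [3, 8, 6, 7, 8, 9, 10, 11],
  [2, 4, 6, 10, 11, 12, 13, 14],
  [4, 27, 3, 4, 5, 9, 10, 14],
  [5, 9, 9, 10, 11, 12, 13, 14],
  [4, 28, 3, 4, 8, 9, 10, 14],
  [5, 11, 9, 10, 11, 12, 13, 14],
  [3, 17, 4, 5, 6, 7, 8, 12],
  [4, 13, 7, 8, 9, 10, 11, 12],
  [5, 37, 3, 4, 5, 12, 13, 14],
  [5, 20, 4, 5, 9, 10, 11, 12],
  [2, 4, 4, 6, 8, 10, 12, 14],
  [5, 14, 4, 5, 6, 7, 11, 12],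
  [5, 44, 3, 4, 11, 12, 13, 14],
  [4, 21, 4, 5, 6, 7, 8, 9],
  [3, 17, 4, 8, 9, 10, 11, 12],
  [1, 0, 3, 4, 5, 6, 7, 14],
  [2, 22, 9, 10, 11, 12, 13, 14],
  [5, 42, 3, 7, 8, 12, 13, 14],
  [5, 47, 3, 7, 11, 12, 13, 14],
  [2, 4, 3, 4, 5, 6, 10, 14],
  [3, 26, 5, 6, 7, 8, 9, 10],
  [3, 29, 3, 4, 5, 6, 7, 8],
  [2, 22, 3, 7, 8, 9, 10, 14],
  [3, 5, 3, 4, 5, 6, 13, 14],
  [4, 30, 8, 9, 10, 11, 12, 13],
  [4, 33, 6, 7, 8, 9, 10, 11],
  [3, 8, 3, 4, 5, 6, 13, 14],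
  [4, 30, 5, 6, 7, 8, 9, 13],
  [4, 13, 3, 4, 5, 12, 13, 14],
  [5, 35, 7, 8, 9, 10, 11, 12],
  [4, 33, 5, 6, 10, 11, 12, 13],
  [5, 37, 5, 6, 7, 8, 9, 10],
  [4, 41, 3, 4, 5, 6, 7, 8],
  [3, 17, 3, 4, 8, 12, 13, 14],
  [3, 23, 3, 7, 8, 9, 13, 14],
  [4, 41, 8, 9, 10, 11, 12, 13],
  [5, 47, 3, 4, 5, 6, 7, 11],
  [4, 48, 3, 4, 5, 6, 10, 11],
  [5, 49, 3, 4, 5, 9, 10, 11],
  [4, 21, 3, 4, 11, 12, 13, 14],
  [4, 51, 3, 7, 8, 9, 10, 11],
  [3, 26, 3, 10, 11, 12, 13, 14],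
  [4, 48, 5, 6, 7, 8, 9, 10],
  [4, 28, 3, 10, 11, 12, 13, 14],
  [3, 29, 3, 10, 11, 12, 13, 14],
  [8, 56, 6, 7, 8, 9, 10, 14],
  [9, 52, 9, 10, 11, 12, 13, 14],
  [11, 55, 7, 8, 9, 10, 11, 12],
  [10, 59, 6, 7, 11, 12, 13, 14],
  [7, 116, 1, 6, 8, 10, 12, 14],
  [10, 53, 6, 7, 8, 9, 13, 14],
  [11, 57, 8, 9, 10, 11, 12, 13],
  [9, 60, 6, 7, 8, 9, 10, 11],
  [8, 56, 6, 10, 11, 12, 13, 14],
  [9, 65, 6, 7, 8, 9, 10, 14],
  [10, 61, 9, 10, 11, 12, 13, 14],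
  [12, 64, 7, 8, 9, 10, 11, 12],
  [11, 68, 6, 7, 11, 12, 13, 14],
  [8, 117, 1, 6, 8, 10, 12, 14],
  [11, 62, 6, 7, 8, 9, 13, 14],
  [12, 66, 8, 9, 10, 11, 12, 13],
  [10, 69, 6, 7, 8, 9, 10, 11],
  [9, 65, 6, 10, 11, 12, 13, 14],
  [3, 78, 1, 2, 3, 4, 5, 9],
  [4, 70, 9, 10, 11, 12, 13, 14],
  [4, 70, 4, 5, 6, 7, 8, 9],
  [5, 72, 9, 10, 11, 12, 13, 14],
  [6, 76, 2, 3, 4, 5, 6, 7],
  [7, 74, 9, 10, 11, 12, 13, 14],
  [5, 84, 1, 2, 6, 7, 8, 9],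
  [6, 76, 9, 10, 11, 12, 13, 14],
  [2, 22, 1, 3, 5, 7, 9, 14],
  [3, 78, 9, 10, 11, 12, 13, 14],
  [5, 72, 1, 2, 3, 4, 8, 9],
  [6, 80, 9, 10, 11, 12, 13, 14],
  [6, 80, 3, 4, 5, 6, 7, 8],
  [7, 82, 9, 10, 11, 12, 13, 14],
  [4, 86, 1, 2, 3, 4, 5, 6],
  [5, 84, 9, 10, 11, 12, 13, 14],
  [3, 78, 1, 5, 6, 7, 8, 9],
  [4, 86, 9, 10, 11, 12, 13, 14],
  [6, 92, 4, 5, 6, 7, 8, 12],
  [7, 88, 7, 8, 9, 10, 11, 12],
  [4, 112, 1, 2, 3, 4, 5, 12],
  [5, 90, 5, 6, 7, 8, 9, 10],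
  [5, 114, 1, 2, 3, 4, 8, 12],
  [6, 94, 6, 7, 8, 9, 10, 11],
  [5, 90, 4, 5, 6, 10, 11, 12],
  [6, 91, 4, 5, 9, 10, 11, 12],
  [6, 92, 4, 8, 9, 10, 11, 12],
  [4, 115, 1, 2, 3, 7, 8, 12],
  [5, 97, 7, 8, 9, 10, 11, 12],
  [5, 97, 2, 3, 4, 5, 6, 7],
  [6, 99, 7, 8, 9, 10, 11, 12],
  [7, 105, 2, 3, 4, 5, 6, 10],
  [8, 101, 5, 6, 7, 8, 9, 10],
  [8, 104, 3, 4, 5, 6, 7, 8],
  [7, 108, 2, 3, 7, 8, 9, 10],
  [6, 92, 2, 4, 6, 8, 10, 12],
  [7, 131, 1, 2, 9, 10, 11, 12],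
  [7, 132, 1, 2, 9, 10, 11, 12],
  [6, 133, 1, 2, 9, 10, 11, 12],
  [7, 108, 2, 3, 4, 5, 6, 7],
  [6, 24, 1, 3, 5, 7, 12, 14],
  [6, 25, 1, 3, 5, 7, 12, 14],
  [3, 26, 1, 3, 5, 10, 12, 14],
  [4, 112, 5, 6, 7, 8, 9, 10],
  [4, 115, 3, 4, 5, 6, 7, 8],
  [3, 29, 1, 3, 8, 10, 12, 14],
  [6, 99, 1, 2, 6, 7, 8, 12],
  [7, 116, 1, 2, 3, 4, 5, 6],
  [7, 122, 3, 4, 5, 6, 7, 11],
  [6, 94, 1, 2, 3, 4, 11, 12],
  [7, 95, 1, 2, 3, 4, 11, 12],
  [7, 96, 1, 2, 3, 4, 11, 12],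
  [6, 98, 1, 2, 3, 7, 11, 12],
  [7, 119, 3, 4, 5, 6, 10, 11],
  [8, 123, 5, 6, 7, 8, 9, 10],
  [8, 126, 3, 4, 5, 6, 7, 8],
  [7, 122, 3, 7, 8, 9, 10, 11],
  [6, 128, 6, 7, 8, 9, 10, 11],
  [5, 130, 1, 2, 3, 4, 5, 6],
  [5, 130, 6, 7, 8, 9, 10, 11],
  [4, 112, 1, 5, 6, 10, 11, 12],
  [6, 135, 1, 2, 3, 4, 5, 9],
  [6, 136, 1, 2, 3, 4, 8, 9],
  [5, 137, 1, 2, 3, 7, 8, 9],
  [6, 133, 2, 3, 4, 5, 6, 7],
  [5, 113, 1, 5, 9, 10, 11, 12],
  [5, 137, 3, 4, 5, 6, 7, 8],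
  [4, 115, 1, 8, 9, 10, 11, 12],
  [7, 116, 1, 8, 9, 10, 11, 12],
  [6, 135, 1, 5, 6, 7, 8, 9]]

theorem gen_eq : gen 13 1 14 = lit := by decide +kernel

theorem lit_valid : lit.all validB = true := by decide +kernel

def stepB (i : ℕ) : Bool :=
  match cert.getD i [] with
  | [r, p, a, b, c, d, e, f] =>
    Nat.blt p 140 && Nat.blt ((cert.getD p []).getD 0 0) r &&
      twistB (lit.getD p []) (lit.getD i []) a b c d e f
  | _ => false

theorem steps : (List.range 140).all (fun i => i == 0 || stepB i) = true := by decide +kernel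

theorem lit_len : lit.length = 140 := by decide +kernel

theorem col (i : ℕ) (hi : i < 140) : Colorful 14 (lit.getD i []).toFinset := by
  apply valid_of
  have := List.all_eq_true.1 lit_valid
  apply this
  rw [List.getD_eq_getElem _ _ (by rw [lit_len]; exact hi)]
  exact List.getElem_mem _

def vtx (i : ℕ) (hi : i < 140) : {T : Finset (ℕ × ℕ) // Colorful 14 T} := ⟨_, col i hi⟩

theorem reach : ∀ (r i : ℕ) (hi : i < 140), (cert.getD i []).getD 0 0 < r →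
    (H 14).Reachable (vtx 0 (by omega)) (vtx i hi) := by
  intro r
  induction r with
  | zero => intro i hi h; omega
  | succ r ih =>
    intro i hi h
    have hs := List.all_eq_true.1 steps i (List.mem_range.2 hi)
    simp only [Bool.or_eq_true, beq_iff_eq] at hs
    rcases hs with rfl | hs
    · exact SimpleGraph.Reachable.refl _
    unfold stepB at hs
    split at hs
    · rename_i r' p a b c d e f heq
      simp only [Bool.and_eq_true, Nat.blt_eq] at hs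
      obtain ⟨⟨hp, hr⟩, ht⟩ := hs
      rw [heq] at h
      have h0 : r' < r + 1 := h
      have h1 := ih p hp (by omega)
      have h2 := twist_of _ _ _ _ _ _ _ _ ht
      by_cases hq : vtx p hp = vtx i hi
      · exact hq ▸ h1
      · refine h1.trans (SimpleGraph.Adj.reachable ?_)
        rw [H, SimpleGraph.fromRel_adj]
        exact ⟨hq, Or.inl h2⟩
    · exact Bool.noConfusion hs

theorem all_vtx (T : {T : Finset (ℕ × ℕ) // Colorful 14 T}) : ∃ i hi, T = vtx i hi := by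
  obtain ⟨l, hl, hm⟩ := gen_complete T.2 13 1 14 (by omega) (by omega) (Or.inr (Or.inr ⟨rfl, rfl⟩))
  rw [gen_eq] at hl
  obtain ⟨i, hi, rfl⟩ := List.getElem_of_mem hl
  have hi' : i < 140 := by rw [← lit_len]; exact hi
  refine ⟨i, hi', Subtype.ext ?_⟩
  show T.1 = (lit.getD i []).toFinset
  rw [List.getD_eq_getElem _ _ hi]
  ext ⟨x, y⟩
  rw [List.mem_toFinset, hm]
  constructor
  · intro h
    have := T.2.1.1 _ h
    unfold IsDiag at this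
    simp only at this
    exact ⟨h, by omega, by omega, by omega⟩
  · exact fun h => h.1

theorem conn : (H 14).Connected := by
  have : Nonempty {T : Finset (ℕ × ℕ) // Colorful 14 T} := ⟨vtx 0 (by omega)⟩
  refine ⟨fun S T => ?_⟩
  obtain ⟨i, hi, rfl⟩ := all_vtx S
  obtain ⟨j, hj, rfl⟩ := all_vtx T
  exact (reach _ i hi (Nat.lt_succ_self _)).symm.trans (reach _ j hj (Nat.lt_succ_self _))

theorem result : ¬ ∀ N : ℕ, 8 ≤ N → N % 3 = 2 → ¬ (H N).Connected :=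
  fun h => h 14 (by omega) (by omega) conn

end Pool.Agent.Results.MP_b57ad3_co.Full
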